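import Pool.Agent.NH10.DZ.Fin

/-!
# Almost all zeros of the zeta function are distinct if and only if the pair correlation asymptotic
for different zeros holds on average

The case `q = 1` of the problem.  `D T B` is the mean over `a` in `[0, B]` of the deficiency
`2 G(a) - P(T, a) / N(T, 2T)` of the number `P(T, a)` of ordered pairs of different zeros with
ordinates in `(T, 2T]` at distance at most `2πa / log T`, compared with the value `2 G(a)` predicted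
by the pair correlation conjecture.  With no hypothesis: `D T B` is the mean multiplicity minus one,
up to `C / B`; and `N_d(T,2T) / N(T,2T) → 1` if and only if `D T B → 0` (`T → ∞`, then `B → ∞`).
-/

open Filter Topology MeasureTheory

namespace Pool.Agent.Results.MP_f259ea_nt.AveragedPairsCriterion

/-- the multiplicity of `s` as a zero of the Riemann zeta function -/
noncomputable def mult (s : ℂ) : ℕ := analyticOrderNatAt riemannZeta s

/-- the nontrivial zeros of `ζ` with ordinate in `(T, 2T]` -/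
def zeros (T : ℝ) : Set ℂ :=
  {s : ℂ | riemannZeta s = 0 ∧ 0 < s.re ∧ s.re < 1 ∧ T < s.im ∧ s.im ≤ 2 * T}

/-- the number of these zeros, counted with multiplicity -/
noncomputable def N (T : ℝ) : ℕ := ∑ᶠ s ∈ zeros T, mult s

/-- the number of distinct zeros among them -/
noncomputable def Nd (T : ℝ) : ℕ := (zeros T).ncard

/-- the sum of the squares of the multiplicities of the distinct zeros -/
noncomputable def M (T : ℝ) : ℕ := ∑ᶠ s ∈ zeros T, mult s ^ 2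

/-- the number of ordered pairs of DIFFERENT zeros (different complex numbers, counted with
multiplicity) with ordinates in `(T, 2T]` at distance at most `2πa / log T` -/
noncomputable def P (T a : ℝ) : ℕ :=
  ∑ᶠ p ∈ {p : ℂ × ℂ | p.1 ∈ zeros T ∧ p.2 ∈ zeros T ∧ p.1 ≠ p.2 ∧
    |p.1.im - p.2.im| ≤ 2 * Real.pi * a / Real.log T}, mult p.1 * mult p.2

/-- the function `G(a) = ∫_0^a (1 - (sin πu / πu)²) du` of the pair correlation conjecture -/
noncomputable def G (a : ℝ) : ℝ := ∫ u in (0 : ℝ)..a, (1 - Real.sinc (Real.pi * u) ^ 2)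

/-- the mean over `a` in `[0, B]` of `2 G(a) - P(T, a) / N(T)` -/
noncomputable def D (T B : ℝ) : ℝ := (1 / B) * ∫ a in (0 : ℝ)..B, (2 * G a - (P T a : ℝ) / N T)

theorem zeros_eq (T : ℝ) : zeros T = H370.zset riemannZeta T (2 * T) := by
  ext s
  simp only [zeros, H370.zset, Set.mem_ofPred_eq]
  tauto

theorem N_eq (T : ℝ) : N T = H370.NN riemannZeta T (2 * T) := by
  unfold N H370.NN
  rw [zeros_eq]
  rfl

theorem Nd_eq (T : ℝ) : Nd T = H370.Nd riemannZeta T (2 * T) := by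
  unfold Nd H370.Nd
  rw [zeros_eq]

theorem zeros_coe {T : ℝ} (hT : 1 ≤ T) : zeros T = ↑(Pool.Agent.NH11.PV.Zb T (2 * T)) := by
  rw [zeros_eq]
  ext s
  rw [Finset.mem_coe, Pool.Agent.NH11.PV.mem_Zb hT]

theorem M_eq {T : ℝ} (hT : 1 ≤ T) : (M T : ℝ) = Pool.Agent.NH10.DZ.MM T := by
  unfold M Pool.Agent.NH10.DZ.MM
  rw [zeros_coe hT, finsum_mem_coe_finset]
  push_cast
  rfl

theorem P_eq {T : ℝ} (hT : 1 ≤ T) (a : ℝ) : (P T a : ℝ) = Pool.Agent.NH10.DZ.P2 T a := by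
  classical
  have e : {p : ℂ × ℂ | p.1 ∈ zeros T ∧ p.2 ∈ zeros T ∧ p.1 ≠ p.2 ∧
      |p.1.im - p.2.im| ≤ 2 * Real.pi * a / Real.log T} =
      ↑((Pool.Agent.NH11.PV.Zb T (2 * T) ×ˢ Pool.Agent.NH11.PV.Zb T (2 * T)).filter fun p =>
        p.1 ≠ p.2 ∧ |p.1.im - p.2.im| ≤ 2 * Real.pi * a / Real.log T) := by
    ext p
    rw [Finset.mem_coe, Finset.mem_filter, Finset.mem_product, Set.mem_ofPred_eq, zeros_coe hT,
      Finset.mem_coe, Finset.mem_coe]
    tauto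
  unfold P
  rw [e, finsum_mem_coe_finset, Finset.sum_filter, Finset.sum_product]
  push_cast
  unfold Pool.Agent.NH10.DZ.P2
  refine Finset.sum_congr rfl fun s _ => Finset.sum_congr rfl fun s' _ => ?_
  change _ = (mult s : ℝ) * (mult s' : ℝ) * _
  by_cases h1 : s = s'
  · simp [h1]
  · by_cases h2 : |s.im - s'.im| ≤ 2 * Real.pi * a / Real.log T
    · simp [h1, h2]
    · simp [h1, h2]

theorem D_eq {T : ℝ} (hT : 1 ≤ T) (B : ℝ) : D T B = Pool.Agent.NH10.DZ.DD T B := by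
  unfold D Pool.Agent.NH10.DZ.DD
  congr 2
  funext a
  rw [P_eq hT, N_eq]
  rfl

/-- **The criterion.**  No hypothesis is assumed. -/
theorem result :
    (∃ C : ℝ, 0 < C ∧ ∀ B : ℝ, 0 < B → ∃ T₀ : ℝ, ∀ T : ℝ, T₀ ≤ T →
      |D T B - ((M T : ℝ) / N T - 1)| ≤ C / B ∧
      2 * (1 - (Nd T : ℝ) / N T) ≤ (M T : ℝ) / N T - 1 ∧
      ((M T : ℝ) / N T - 1) ^ 2 ≤ C * (1 - (Nd T : ℝ) / N T)) ∧
    (Tendsto (fun T => (Nd T : ℝ) / N T) atTop (𝓝 1) →
      ∀ ε : ℝ, 0 < ε → ∃ B₀ : ℝ, 0 < B₀ ∧ ∀ B : ℝ, B₀ ≤ B → ∃ T₀ : ℝ, ∀ T : ℝ, T₀ ≤ T →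
        |D T B| ≤ ε) ∧
    ((∀ ε : ℝ, 0 < ε → ∃ B : ℝ, 1 / ε ≤ B ∧ ∃ T₀ : ℝ, ∀ T : ℝ, T₀ ≤ T → D T B ≤ ε) →
      Tendsto (fun T => (Nd T : ℝ) / N T) atTop (𝓝 1)) := by
  have hr : ∀ T : ℝ, (Nd T : ℝ) / N T = Pool.Agent.NH10.DZ.rd T := by
    intro T
    rw [Nd_eq, N_eq]
    rfl
  have hm : ∀ T : ℝ, 1 ≤ T → (M T : ℝ) / N T = Pool.Agent.NH10.DZ.mm T := by
    intro T hT
    rw [M_eq hT, N_eq]
    rfl
  refine ⟨?_, ?_, ?_⟩
  · obtain ⟨C, hC, h⟩ := Pool.Agent.NH10.DZ.quant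
    refine ⟨C, hC, fun B hB => ?_⟩
    obtain ⟨T0, hT0, h1⟩ := h B hB
    refine ⟨T0, fun T hT => ?_⟩
    obtain ⟨g1, g2, -, g4⟩ := h1 T hT
    have hT1 : 1 ≤ T := by linarith
    rw [hr, hm T hT1, D_eq hT1]
    exact ⟨g1, g2, g4⟩
  · intro h ε hε
    have h' : Tendsto Pool.Agent.NH10.DZ.rd atTop (𝓝 1) := h.congr hr
    obtain ⟨B0, hB0, h1⟩ := Pool.Agent.NH10.DZ.crit_to h' ε hε
    refine ⟨B0, hB0, fun B hB => ?_⟩
    obtain ⟨T0, h2⟩ := h1 B hB
    refine ⟨max T0 1, fun T hT => ?_⟩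
    rw [D_eq ((le_max_right _ _).trans hT)]
    exact h2 T ((le_max_left _ _).trans hT)
  · intro h
    have h1 : Tendsto Pool.Agent.NH10.DZ.rd atTop (𝓝 1) := by
      refine Pool.Agent.NH10.DZ.crit_of fun ε hε => ?_
      obtain ⟨B, hB, T0, h2⟩ := h ε hε
      refine ⟨B, hB, max T0 1, fun T hT => ?_⟩
      rw [← D_eq ((le_max_right _ _).trans hT)]
      exact h2 T ((le_max_left _ _).trans hT)
    exact h1.congr fun T => (hr T).symm

end Pool.Agent.Results.MP_f259ea_nt.AveragedPairsCriterion
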