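import Pool.Agent.NH13.WV.Fin5

/-!
# Multiple zeros and zeros off the critical line are seen by the primes, for every modulus

No hypothesis is assumed. For every large modulus `q`, the long logarithmic mean of
`V(x, q) / (x log q)`, `V(x, q)` the variance of the primes in the reduced classes modulo `q`, is at
least `1` plus the weighted proportion of those zeros of the `L(s, χ)`, `χ` nonprincipal modulo `q`,
which are multiple or off the line `Re s = 1/2`, up to `δ + ε`.
-/

set_option autoImplicit false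

open MeasureTheory Filter Topology Set

namespace Pool.Agent.Results.MP_f259ea_nt.BadZerosAndPrimes

/-- `ψ(x; q, a)`, the sum of `Λ(n)` over the positive integers `n ≤ x` with `n ≡ a mod q`
(used for `0 ≤ a < q`) -/
noncomputable def psiAP (x : ℝ) (q a : ℕ) : ℝ :=
  ∑ n ∈ (Finset.Icc 1 ⌊x⌋₊).filter (fun n => n % q = a), ArithmeticFunction.vonMangoldt n

/-- the sum of `(ψ(x; q, a) - x / φ(q))²` over the residues `a` prime to `q` -/
noncomputable def V (x : ℝ) (q : ℕ) : ℝ :=
  ∑ a ∈ (Finset.range q).filter (fun a => a.Coprime q), (psiAP x q a - x / q.totient) ^ 2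

/-- the mean of `V(x, q) / (x log q)` over `x ≥ 1` with respect to
`(2δ / log q) x ^ (-2δ / log q) dx / x`, a measure of total mass `1`; possibly infinite -/
noncomputable def M (q : ℕ) (δ : ℝ) : ENNReal :=
  ENNReal.ofReal (2 * δ) * ((∫⁻ x in Ioi (1 : ℝ), ENNReal.ofReal (V x q *
    x ^ (-2 - 2 * δ / Real.log q))) / ENNReal.ofReal (Real.log q ^ 2))

/-- the zeros of `L(s, χ)` with `0 < Re s < 1` -/
def zeros {q : ℕ} [NeZero q] (χ : DirichletCharacter ℂ q) : Set ℂ :=
  {s : ℂ | DirichletCharacter.LFunction χ s = 0 ∧ 0 < s.re ∧ s.re < 1}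

/-- the multiplicity of a zero -/
noncomputable def mult {q : ℕ} [NeZero q] (χ : DirichletCharacter ℂ q) (s : ℂ) : ℕ :=
  analyticOrderNatAt (DirichletCharacter.LFunction χ) s

/-- the zeros of `L(s, χ)`, with multiplicity and with the weights `1 / (1/4 + (Im s)²)`, which are
off the critical line or multiple -/
noncomputable def badWeight {q : ℕ} [NeZero q] (χ : DirichletCharacter ℂ q) : ℝ :=
  ∑' s : {s : ℂ // s ∈ zeros χ ∧ (s.re ≠ 1 / 2 ∨ 2 ≤ mult χ s)},
    (mult χ s : ℝ) / (1 / 4 + (s : ℂ).im ^ 2)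

/-- the nonprincipal characters modulo `q` -/
noncomputable def nonprincipal (q : ℕ) [NeZero q] : Finset (DirichletCharacter ℂ q) := by
  classical exact Finset.univ.filter (fun χ => χ ≠ 1)

/-- the sum over the nonprincipal characters modulo `q`, divided by `φ(q) log q` -/
noncomputable def bad (q : ℕ) [NeZero q] : ℝ :=
  1 / (Real.log q * q.totient) * ∑ χ ∈ nonprincipal q, badWeight χ

theorem result : ∀ δ ε : ℝ, 0 < δ → 0 < ε → ∃ q0 : ℕ, ∀ (q : ℕ) [NeZero q], q0 ≤ q →
    ENNReal.ofReal (1 + bad q - δ - ε) ≤ M q δ := Pool.Agent.NH13.WV.Fin5.main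

end Pool.Agent.Results.MP_f259ea_nt.BadZerosAndPrimes
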