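import Pool.Agent.NH13.DZ.All

/-!
# Simple and distinct zeros of the L-functions of all primitive characters of one modulus

Unconditionally, for EVERY modulus `q` and every `T ≥ K √(log (q + 2))`: among all zeros of the
functions `L(s, χ)`, `χ` primitive modulo `q`, with `T < Im s ≤ 2 T`, at least 67.25 per cent are
simple and on the critical line and at least 83.625 per cent are distinct. No average over `q`.
In particular for every modulus `q` at least a positive proportion of the individual primitive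
characters has this property with smaller proportions.
-/

set_option autoImplicit false

namespace Pool.Agent.Results.MP_f259ea_nt.EveryModulus

/-- The nontrivial zeros of `L(s, χ)` with ordinate in `(T, 2T]`. -/
def zeros {q : ℕ} [NeZero q] (χ : DirichletCharacter ℂ q) (T : ℝ) : Set ℂ :=
  {s : ℂ | DirichletCharacter.LFunction χ s = 0 ∧ 0 < s.re ∧ s.re < 1 ∧ T < s.im ∧ s.im ≤ 2 * T}

/-- The number of these zeros, counted with multiplicity. -/
noncomputable def N {q : ℕ} [NeZero q] (T : ℝ) (χ : DirichletCharacter ℂ q) : ℕ :=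
  ∑ᶠ s ∈ zeros χ T, analyticOrderNatAt (DirichletCharacter.LFunction χ) s

/-- The number of distinct zeros among them. -/
noncomputable def Nd {q : ℕ} [NeZero q] (T : ℝ) (χ : DirichletCharacter ℂ q) : ℕ :=
  (zeros χ T).ncard

/-- The number of those that are simple and on the critical line. -/
noncomputable def Ns {q : ℕ} [NeZero q] (T : ℝ) (χ : DirichletCharacter ℂ q) : ℕ :=
  {s : ℂ | s ∈ zeros χ T ∧ s.re = 1 / 2 ∧
    analyticOrderNatAt (DirichletCharacter.LFunction χ) s = 1}.ncard

/-- The sum over all primitive Dirichlet characters modulo `q`. -/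
noncomputable def fam (q : ℕ) (f : DirichletCharacter ℂ q → ℕ) : ℝ :=
  ∑ᶠ χ : {χ : DirichletCharacter ℂ q // χ.IsPrimitive}, (f χ : ℝ)

/-- The number of primitive Dirichlet characters modulo `q` with the property `P`. -/
noncomputable def count (q : ℕ) (P : DirichletCharacter ℂ q → Prop) : ℝ :=
  (Nat.card {χ : DirichletCharacter ℂ q // χ.IsPrimitive ∧ P χ} : ℝ)

section

variable {q : ℕ} [NeZero q] (T : ℝ) (χ : DirichletCharacter ℂ q)

theorem zeros_eq : zeros χ T = H370.zset (H385.LF q χ) T (2 * T) := by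
  rw [H385.LF_eq]
  ext s
  simp only [zeros, H370.zset, Set.mem_ofPred_eq]
  tauto

theorem N_eq : N T χ = H370.NN (H385.LF q χ) T (2 * T) := by
  unfold N H370.NN
  rw [zeros_eq, H385.LF_eq]
  rfl

theorem Nd_eq : Nd T χ = H370.Nd (H385.LF q χ) T (2 * T) := by
  unfold Nd H370.Nd
  rw [zeros_eq]

theorem Ns_eq : Ns T χ = H370.Ns (H385.LF q χ) T (2 * T) := by
  unfold Ns H370.Ns
  rw [zeros_eq, H385.LF_eq]
  rfl

open Pool.Agent.NH13.DZ in
theorem fam_eq (q : ℕ) [NeZero q] (f : DirichletCharacter ℂ q → ℕ) :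
    fam q f = ∑ χ ∈ PrimS q, (f χ : ℝ) := by
  classical
  unfold fam PrimS
  rw [finsum_eq_sum_of_fintype]
  symm
  apply Finset.sum_subtype
  intro x
  simp

open Pool.Agent.NH13.DZ in
open Classical in
theorem count_eq (q : ℕ) [NeZero q] (P : DirichletCharacter ℂ q → Prop) :
    count q P = (((PrimS q).filter P).card : ℝ) := by
  unfold count PrimS
  rw [Nat.card_eq_fintype_card, Fintype.card_subtype, Finset.filter_filter]

end

/-- Unconditionally, for every modulus `q` and every `T ≥ K √(log (q + 2))`. -/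
theorem result : ∃ K : ℝ, 1 ≤ K ∧ ∀ (q : ℕ) [NeZero q] (T : ℝ),
    K * Real.sqrt (Real.log ((q : ℝ) + 2)) ≤ T →
    -- proportions in the family of all primitive characters modulo `q`
    0.6725 * fam q (N T) ≤ fam q (Ns T) ∧ 0.83625 * fam q (N T) ≤ fam q (Nd T) ∧
    -- individual characters
    ∀ y : ℝ, 0 ≤ y → y < 1 →
      count q (fun χ => (Ns T χ : ℝ) < y * N T χ) * (1 - y) ≤ 0.3275 * count q (fun _ => True) ∧
      count q (fun χ => (Nd T χ : ℝ) < y * N T χ) * (1 - y) ≤ 0.16375 * count q (fun _ => True) := by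
  classical
  obtain ⟨K, hK, h⟩ := Pool.Agent.NH13.DZ.final
  refine ⟨K, hK, fun q _ T hT => ?_⟩
  obtain ⟨h1, h2, h3⟩ := h q T hT
  have e0 : count q (fun _ => True) = (Pool.Agent.NH13.DZ.phs q : ℝ) := by
    unfold count Pool.Agent.NH13.DZ.phs
    simp
  refine ⟨?_, ?_, fun y hy0 hy1 => ?_⟩
  · rw [fam_eq, fam_eq]
    simpa only [N_eq, Ns_eq] using h1
  · rw [fam_eq, fam_eq]
    simpa only [N_eq, Nd_eq] using h2
  · rw [e0, count_eq, count_eq]
    refine h3 y hy0 hy1 _ _ (fun χ hχ => ?_) (fun χ hχ => ?_)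
    · simpa only [N_eq, Ns_eq] using hχ
    · simpa only [N_eq, Nd_eq] using hχ

end Pool.Agent.Results.MP_f259ea_nt.EveryModulus
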