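import Pool.Agent.JZ12.All
import Pool.Agent.JZ12.CoreXh
import Pool.Agent.JZ12.PerXh
import Pool.Agent.JZ12.Finh
import Pool.Agent.JZ12.R2h

/-!
# Unions of translates of the zeros of Dirichlet L-functions

Let `(ψ_j, h_j)`, `j ≤ r`, be pairwise different pairs of a primitive Dirichlet character `ψ_j` and a
real number `h_j ≥ 0`.  If the zeros of the Dirichlet L-functions have linearly independent ordinates
then the zeros of the `r` functions `L(s + i h_j, χ ψ_j)` are essentially all different, for every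
`χ`; for instance (all `ψ_j` trivial) if `Z` is the set of the zeros of `L(s, χ)` and `H` is a set of
`r` real numbers then the sumset `Z + i H` has about `r` times as many elements as `Z` in a long
range.  Unconditionally, on average over the `q` prime to `M` with `X < q ≤ Y`
(`K X ≤ Y ≤ X ^ (1 + η)`, weight `q⁻²`; every conductor of a `ψ_j` divides `M`) and the primitive `χ`
modulo `q`, the `r` functions together have at least `(6 r / (3 r + 4) - ε) N` distinct zeros with
`Re s ≥ 1/2` and `T < Im s ≤ 2 T`, `(log X)² ≤ T ≤ X ^ η`, where `N` is the number of the zeros of one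
of them (the mean over `j`), counted with multiplicity, on both sides of the critical line.
The factor is `1.2` for `r = 2` and tends to `2` as `r → ∞`.

Proof.  The trace inequality for zeros (no hypothesis on zeros off the line) is applied to the
product of the `r` functions, an L-function of degree `r`, in the form `tr A² ≥ 2 x tr A - x² rank A`
with the optimal parameter `x = r / 2 + 2 / 3`.  The mean square of the prime sums over the family is
known up to the length `X ^ (2 - ε)` by the sharp large sieve of the starting files; the functions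
`L(s, ψ_j conj ψ_k)` have no zero at `1 + i (h_j - h_k)`, so that the mean square is asymptotically
the sum of the `r` mean squares.

Authors: helper12, helper17, helper19, helper26, helper48, helper58, helper64, helper66, helper71,
helper72, helper75, helper82, helper91, helper93, helper99; the machinery is that of the starting
modules `Pool.Agent.H385R2`, `Pool.Agent.W388` and `Pool.Agent.R321`.
-/

set_option autoImplicit false

open Complex

namespace Pool.Agent.Results.MP_f259ea_nt.UnionsOfTranslates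

/-- The Dirichlet L-function of a character modulo `q` (the value for `q = 0` is never used). -/
noncomputable def Lfun (q : ℕ) (χ : DirichletCharacter ℂ q) : ℂ → ℂ :=
  if h : q = 0 then 0 else
    haveI : NeZero q := ⟨h⟩
    DirichletCharacter.LFunction χ

/-- The character `χ ψ` modulo `q N`. -/
noncomputable def prod {q N : ℕ} (χ : DirichletCharacter ℂ q) (ψ : DirichletCharacter ℂ N) :
    DirichletCharacter ℂ (q * N) :=
  DirichletCharacter.changeLevel (Nat.dvd_mul_right q N) χ *
    DirichletCharacter.changeLevel (Nat.dvd_mul_left N q) ψ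

/-- The function `s ↦ L(s + i h, χ ψ)`. -/
noncomputable def F {N : ℕ} (ψ : DirichletCharacter ℂ N) (h : ℝ) {q : ℕ}
    (χ : DirichletCharacter ℂ q) (s : ℂ) : ℂ :=
  Lfun (q * N) (prod χ ψ) (s + (h : ℂ) * I)

/-- The zeros of `F` in the open critical strip with ordinate in `(T, 2T]`. -/
def zeros (F : ℂ → ℂ) (T : ℝ) : Set ℂ :=
  {s : ℂ | 0 < s.re ∧ s.re < 1 ∧ T < s.im ∧ s.im ≤ 2 * T ∧ F s = 0}

/-- The number of these zeros, counted with multiplicity. -/
noncomputable def N (F : ℂ → ℂ) (T : ℝ) : ℕ := ∑ᶠ s ∈ zeros F T, analyticOrderNatAt F s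

/-- The primitive Dirichlet characters of conductor `q`. -/
def prim (q : ℕ) : Set (DirichletCharacter ℂ q) := {χ | χ.IsPrimitive}

/-- The sum of `f q χ / q²` over the `q` prime to `M` with `X < q ≤ Y` and the primitive characters
`χ` modulo `q`. -/
noncomputable def fam (M X Y : ℕ) (f : (q : ℕ) → DirichletCharacter ℂ q → ℕ) : ℝ :=
  ∑ q ∈ (Finset.Ioc X Y).filter (fun q => Nat.Coprime q M), (1 / (q : ℝ) ^ 2) *
    ∑ᶠ χ ∈ prim q, (f q χ : ℝ)

lemma fam_eq (M X Y : ℕ) (f : (q : ℕ) → DirichletCharacter ℂ q → ℕ) :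
    fam M X Y f = H385.primFamM M X Y (fun q χ => (f q χ : ℝ)) := by
  unfold fam H385.primFamM
  refine Finset.sum_congr rfl fun q _ => ?_
  congr 1
  rw [← finsum_set_coe_eq_finsum_mem]
  rfl

/-- **Distinct zeros of `r` translated and twisted L-functions, on average.** -/
theorem result (r : ℕ) (hr : 1 ≤ r) (Nr : Fin r → ℕ) (ψ : (j : Fin r) → DirichletCharacter ℂ (Nr j))
    (h : Fin r → ℝ) (M : ℕ) (hM : 1 ≤ M) (hN : ∀ j, Nr j ∣ M) (hψ : ∀ j, (ψ j).IsPrimitive)
    (hh : ∀ j, 0 ≤ h j)
    (hne : ∀ i j, i ≠ j → h i = h j → ∃ n : ℕ, ψ i (n : ZMod (Nr i)) ≠ ψ j (n : ZMod (Nr j)))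
    (ε : ℝ) (hε : 0 < ε) :
    ∃ K η X₀ : ℝ, 1 ≤ K ∧ 0 < η ∧ 1 ≤ X₀ ∧
    ∀ (X Y : ℕ) (T : ℝ), X₀ ≤ X → K * X ≤ Y → (Y : ℝ) ≤ (X : ℝ) ^ (1 + η) →
      (Real.log X) ^ 2 ≤ T → T ≤ (X : ℝ) ^ η →
      0 < fam M X Y (fun _ χ => ∑ j, N (F (ψ j) (h j) χ) T) ∧
      (∀ q : ℕ, X < q → Nat.Coprime q M → ∀ χ ∈ prim q, ∀ j, (zeros (F (ψ j) (h j) χ) T).Finite) ∧
      (6 * r / (3 * r + 4) - ε) * (fam M X Y (fun _ χ => ∑ j, N (F (ψ j) (h j) χ) T) / r) ≤
        fam M X Y (fun _ χ =>
          {s : ℂ | (∃ j, s ∈ zeros (F (ψ j) (h j) χ) T) ∧ 1 / 2 ≤ s.re}.ncard) := by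
  let D : Pool.Agent.JZ12.Dat r :=
    { N := Nr
      ψ := ψ
      h := h
      N0 := by
        intro j h0
        have h1 := hN j
        rw [h0, zero_dvd_iff] at h1
        omega
      prim := hψ
      h0 := hh
      ne := hne }
  obtain ⟨K, η, X0, hK, hη, hX0, H⟩ := Pool.Agent.JZ12.unionsh Pool.Agent.JZ12.all_main
    (Pool.Agent.JZ12.t_finh (Pool.Agent.JZ12.t_corexh Pool.Agent.JZ12.t_perxh) W388.p_mean
      Pool.Agent.JZ12.t_scale) Pool.Agent.JZ12.all_sel
    Pool.Agent.JZ12.all_tw Pool.Agent.JZ12.t_num Pool.Agent.JZ12.t_counts r D hr M (by omega) hN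
    ε hε
  refine ⟨K, η, X0, hK, hη, hX0, ?_⟩
  intro X Y T hX hKX hY hT1 hT2
  obtain ⟨b0, bf, b1⟩ := H X Y T hX hKX hY hT1 hT2
  rw [fam_eq, fam_eq]
  exact ⟨b0, fun q hq ho χ hχ => bf q hq ho χ hχ, b1⟩

end Pool.Agent.Results.MP_f259ea_nt.UnionsOfTranslates
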